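import Pool.Agent.helper13.RF.Spec2

/-!
# Row RLQ of project RF (MP_16912e_nt)
-/

set_option autoImplicit false

open NumberField IsDedekindDomain
open scoped nonZeroDivisors

namespace Pool.Agent.RF

theorem RLQ : RLQ_stmt := by
  intro D hD hsq K _ _ hdeg ⟨x, hx⟩
  have hxb : x ∉ (⊥ : Subalgebra ℚ K) := by
    intro hmem
    obtain ⟨q, hq⟩ := Algebra.mem_bot.1 hmem
    have h1 : algebraMap ℚ K (q ^ 2) = algebraMap ℚ K (D : ℚ) := by
      rw [map_pow, hq, hx, map_intCast]
    have h2 : q ^ 2 = (D : ℚ) := (algebraMap ℚ K).injective h1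
    have h3 : IsSquare (D : ℚ) := ⟨q, by rw [← h2, sq]⟩
    obtain ⟨n, hn⟩ := Rat.isSquare_intCast_iff.1 h3
    have h4 : IsUnit n := hsq n ⟨1, by rw [mul_one, hn]⟩
    rcases Int.isUnit_iff.1 h4 with h | h
    · rw [hn, h] at hD
      norm_num at hD
    · rw [hn, h] at hD
      norm_num at hD
  have hso : IsSimpleOrder (Subalgebra ℚ K) := Subalgebra.isSimpleOrder_of_finrank_prime ℚ K (by rw [hdeg]; exact Nat.prime_two)
  refine ⟨fun v => ?_⟩
  rw [InfinitePlace.isReal_iff]
  have hz : (v.embedding x) ^ 2 = (D : ℂ) := by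
    rw [← map_pow, hx, map_intCast]
  have him : (v.embedding x).im = 0 := by
    have h1 := congrArg Complex.im hz
    have h2 := congrArg Complex.re hz
    rw [sq, Complex.mul_im, Complex.intCast_im] at h1
    rw [sq, Complex.mul_re, Complex.intCast_re] at h2
    have h3 : (v.embedding x).re * (v.embedding x).im = 0 := by linarith
    have h5 : (1 : ℝ) < D := by exact_mod_cast hD
    rcases mul_eq_zero.1 h3 with h | h
    · rw [h] at h2
      nlinarith [mul_self_nonneg (v.embedding x).im]
    · exact h
  have hcj : (ComplexEmbedding.conjugate v.embedding).toRatAlgHom x = (v.embedding).toRatAlgHom x := by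
    change (starRingEnd ℂ) (v.embedding x) = v.embedding x
    exact Complex.conj_eq_iff_im.2 him
  have heq : AlgHom.equalizer ((ComplexEmbedding.conjugate v.embedding).toRatAlgHom) ((v.embedding).toRatAlgHom) = ⊤ := by
    refine (hso.eq_bot_or_eq_top _).resolve_left ?_
    intro hbot
    apply hxb
    rw [← hbot]
    exact hcj
  change ComplexEmbedding.conjugate v.embedding = v.embedding
  ext y
  have hy : y ∈ AlgHom.equalizer ((ComplexEmbedding.conjugate v.embedding).toRatAlgHom) ((v.embedding).toRatAlgHom) := by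
    rw [heq]
    exact Algebra.mem_top
  exact hy

end Pool.Agent.RF
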