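import Pool.Agent.helper13.RF.Spec1

/-!
# Row UNA of project RF (MP_16912e_nt)
-/

set_option autoImplicit false

open NumberField
open scoped nonZeroDivisors

namespace Pool.Agent.RF

theorem UNA_pr {R : Type} [CommRing R] [IsDedekindDomain R] (b : R) (hb : b ≠ 0) (I p : Ideal R) (hp : p.IsPrime)
    (h : Ideal.span {b} = I ^ 5) : ∃ c d b' : R, c ≠ 0 ∧ d ≠ 0 ∧ b * d ^ 5 = c ^ 5 * b' ∧ b' ∉ p := by
  have hI : I ≠ ⊥ := by
    rintro rfl
    apply hb
    rw [← Ideal.span_singleton_eq_bot, h, ← Ideal.zero_eq_bot, zero_pow (by norm_num)]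
  obtain ⟨c, hcI, hc0⟩ := Submodule.exists_mem_ne_zero_of_ne_bot hI
  obtain ⟨J, hJ⟩ := Ideal.dvd_span_singleton.2 hcI
  have hJ0 : J ≠ 0 := by
    rintro rfl
    apply hc0
    rw [← Ideal.span_singleton_eq_bot, hJ, mul_zero, Ideal.zero_eq_bot]
  have hex : ∃ d ∈ J, d ∉ J * p := by
    by_contra hcon
    push Not at hcon
    have h1 : J * p = J := le_antisymm Ideal.mul_le_left hcon
    have h2 : J * p = J * 1 := by rw [h1, mul_one]
    have h3 := mul_left_cancel₀ hJ0 h2
    exact hp.ne_top (by rw [h3, Ideal.one_eq_top])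
  obtain ⟨d, hdJ, hdp⟩ := hex
  have hd0 : d ≠ 0 := by
    rintro rfl
    exact hdp (Ideal.zero_mem _)
  obtain ⟨J', hJ'⟩ := Ideal.dvd_span_singleton.2 hdJ
  have hnle : ¬ J' ≤ p := by
    intro hle
    apply hdp
    have h1 : d ∈ Ideal.span {d} := Ideal.mem_span_singleton_self d
    rw [hJ'] at h1
    exact Ideal.mul_mono_right hle h1
  have hsp : Ideal.span {b * d ^ 5} = Ideal.span {c ^ 5} * J' ^ 5 := by
    rw [← Ideal.span_singleton_mul_span_singleton, ← Ideal.span_singleton_pow, ← Ideal.span_singleton_pow, h, hJ', hJ]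
    ring
  have hdv : c ^ 5 ∣ b * d ^ 5 := by
    rw [← Ideal.span_singleton_le_span_singleton, hsp]
    exact Ideal.mul_le_left
  obtain ⟨b', hb'⟩ := hdv
  refine ⟨c, d, b', hc0, hd0, hb', ?_⟩
  intro hmem
  rw [hb', ← Ideal.span_singleton_mul_span_singleton] at hsp
  have h4 := mul_left_cancel₀ (by rw [Ideal.zero_eq_bot, Ne, Ideal.span_singleton_eq_bot]; exact pow_ne_zero 5 hc0) hsp
  apply hnle
  rw [← Ideal.IsPrime.pow_le_iff (P := p) (n := 5) (by norm_num), ← h4, Ideal.span_singleton_le_iff_mem]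
  exact hmem

theorem UNA_gen {N M : Type} [Field N] [NumberField N] [Field M] [NumberField M] [Algebra N M] (y : 𝓞 M) (g : Polynomial (𝓞 N))
    (hg : g.Monic) (hgd : g.natDegree = Module.finrank N M) (hy : Polynomial.aeval y g = 0)
    (htop : IntermediateField.adjoin N {(y : M)} = ⊤) (P : Ideal (𝓞 M)) (hP : P.IsPrime)
    (hd : Polynomial.aeval y (Polynomial.derivative g) ∉ P) : P.ramificationIdx (𝓞 N) = 1 := by
  have hint : IsIntegral (𝓞 N) y := ⟨g, hg, by rw [← Polynomial.aeval_def]; exact hy⟩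
  have hintN : IsIntegral N (algebraMap (𝓞 M) M y) := Algebra.IsIntegral.isIntegral _
  have hmin : minpoly (𝓞 N) y = g := by
    symm
    refine Polynomial.eq_of_monic_of_dvd_of_natDegree_le (minpoly.monic hint) hg (minpoly.isIntegrallyClosed_dvd hint hy) ?_
    have h1 := minpoly.isIntegrallyClosed_eq_field_fractions N M hint
    have h2 : (minpoly N (algebraMap (𝓞 M) M y)).natDegree = Module.finrank N M := by
      have h3 := IntermediateField.adjoin.finrank hintN
      have h4 : IntermediateField.adjoin N {(algebraMap (𝓞 M) M y)} = ⊤ := htop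
      rw [h4, IntermediateField.finrank_top'] at h3
      exact h3.symm
    rw [h1, (minpoly.monic hint).natDegree_map] at h2
    rw [h2, hgd]
  have hadj : Algebra.adjoin N {algebraMap (𝓞 M) M y} = ⊤ := by
    have h4 : IntermediateField.adjoin N {(algebraMap (𝓞 M) M y)} = ⊤ := htop
    have h5 := IntermediateField.adjoin_simple_toSubalgebra_of_isAlgebraic (F := N) hintN.isAlgebraic
    rw [h4, IntermediateField.top_toSubalgebra] at h5
    exact h5.symm
  have hmem := aeval_derivative_mem_differentIdeal (𝓞 N) N M y hadj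
  rw [hmin] at hmem
  have hnd : ¬ P ∣ differentIdeal (𝓞 N) (𝓞 M) := by
    intro hdv
    exact hd (Ideal.le_of_dvd hdv hmem)
  have hunr := (not_dvd_differentIdeal_iff (A := 𝓞 N) (B := 𝓞 M) (P := P)).1 hnd
  exact Ideal.ramificationIdx_eq_one_of_isUnramifiedAt

theorem UNA : UNA_stmt := by
  intro N M _ _ _ _ _ α b I hα hb hI hdeg htop P hP hP0 h5
  obtain ⟨c, d, b', hc, hd, hb', hbp⟩ := UNA_pr b hb I (P.under (𝓞 N)) inferInstance hI
  have hc' : ((c : 𝓞 N) : N) ≠ 0 := by
    rw [Ne, RingOfIntegers.coe_eq_zero_iff]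
    exact hc
  have hd' : ((d : 𝓞 N) : N) ≠ 0 := by
    rw [Ne, RingOfIntegers.coe_eq_zero_iff]
    exact hd
  have hbb : (b : N) * (d : N) ^ 5 = (c : N) ^ 5 * (b' : N) := by
    have := congrArg (fun z : 𝓞 N => (z : N)) hb'
    simpa using this
  have hy5 : (α * algebraMap N M ((d : N) / (c : N))) ^ 5 = algebraMap N M (b' : N) := by
    rw [mul_pow, hα, ← map_pow, ← map_mul]
    congr 1
    field_simp
    exact hbb
  have hyint : IsIntegral ℤ (α * algebraMap N M ((d : N) / (c : N))) := by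
    refine IsIntegral.of_pow (n := 5) (by norm_num) ?_
    rw [hy5]
    exact (RingOfIntegers.isIntegral_coe b').algebraMap
  obtain ⟨y, hy⟩ : ∃ y : 𝓞 M, (y : M) = α * algebraMap N M ((d : N) / (c : N)) := ⟨⟨_, hyint⟩, rfl⟩
  have hyb : y ^ 5 = algebraMap (𝓞 N) (𝓞 M) b' := by
    apply RingOfIntegers.coe_injective
    rw [map_pow, show algebraMap (𝓞 M) M y = _ from hy, hy5]
    rfl
  have hyP : y ∉ P := by
    intro hmem
    apply hbp
    rw [Ideal.under, Ideal.mem_comap, ← hyb]
    exact Ideal.pow_mem_of_mem P hmem 5 (by norm_num)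
  refine UNA_gen y (Polynomial.X ^ 5 - Polynomial.C b') (Polynomial.monic_X_pow_sub_C b' (by norm_num)) ?_ ?_ ?_ P hP ?_
  · rw [Polynomial.natDegree_X_pow_sub_C, hdeg]
  · rw [map_sub, map_pow, Polynomial.aeval_X, Polynomial.aeval_C, hyb, sub_self]
  · rw [eq_top_iff, ← htop, IntermediateField.adjoin_le_iff, Set.singleton_subset_iff, SetLike.mem_coe]
    have h1 : α = (y : M) * algebraMap N M ((c : N) / (d : N)) := by
      rw [hy, mul_assoc, ← map_mul]
      have : (d : N) / (c : N) * ((c : N) / (d : N)) = 1 := by field_simp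
      rw [this, map_one, mul_one]
    rw [h1]
    exact mul_mem (IntermediateField.mem_adjoin_simple_self N _) (IntermediateField.algebraMap_mem _ _)
  · have h1 : Polynomial.aeval y (Polynomial.derivative (Polynomial.X ^ 5 - Polynomial.C b')) = 5 * y ^ 4 := by
      rw [Polynomial.derivative_sub, Polynomial.derivative_C, sub_zero, Polynomial.derivative_X_pow, map_mul, map_pow, Polynomial.aeval_X,
        Polynomial.aeval_C, map_natCast]
      norm_num
    rw [h1]
    intro hmem
    rcases hP.mem_or_mem hmem with h | h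
    · exact h5 h
    · exact hyP (hP.mem_of_pow_mem 4 h)

end Pool.Agent.RF
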