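import Pool.Agent.helper33.RF.SpecL

/-!
# Row YVM of project RF (MP_16912e_nt): valuation calculus at a prime element of `OO`
-/

set_option autoImplicit false

namespace Pool.Agent.RF

open NumberField

theorem YVM_1 [IsDomain OO] {π : OO} (hp : Prime π) (x y : OO) (j m : ℕ) (h : π ^ j ∣ x * y) (hy : ¬ π ^ (m + 1) ∣ y) : π ^ (j - m) ∣ x := by
  have hfin : FiniteMultiplicity π y := ⟨m, hy⟩
  obtain ⟨y', hy1, hy2⟩ := hfin.exists_eq_pow_mul_and_not_dvd
  set k := multiplicity π y with hk
  have hkm : k ≤ m := by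
    by_contra hcon
    push Not at hcon
    apply hy
    rw [hy1]
    exact Dvd.dvd.mul_right (pow_dvd_pow π hcon) y'
  have h1 : π ^ j ∣ (x * π ^ k) * y' := by
    rw [mul_assoc, ← hy1]
    exact h
  have h2 : π ^ j ∣ x * π ^ k := hp.pow_dvd_of_dvd_mul_right j hy2 h1
  rcases le_total j k with hjk | hjk
  · have : j - m = 0 := by omega
    rw [this, pow_zero]
    exact one_dvd x
  · have h3 : π ^ (j - k) * π ^ k ∣ x * π ^ k := by
      rw [← pow_add, Nat.sub_add_cancel hjk]
      exact h2
    have h4 : π ^ (j - k) ∣ x := (mul_dvd_mul_iff_right (pow_ne_zero k hp.ne_zero)).1 h3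
    exact (pow_dvd_pow π (by omega)).trans h4

theorem YVM (hWEU : WEU_stmt) : YVM_stmt := by
  intro π hp
  have hd : IsDomain OO := hWEU.1
  refine ⟨fun x y j m h hy => YVM_1 hp x y j m h hy, ?_, ?_⟩
  · intro x y j m hx hy h
    have h1 := YVM_1 hp x y (j + m + 1) m h hy
    have h2 : j + m + 1 - m = j + 1 := by omega
    rw [h2] at h1
    exact hx h1
  · intro x y m hy hx h
    exact hx ((dvd_add_left hy).1 h)

end Pool.Agent.RF
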