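import Pool.Agent.helper60.RF.SpecB

/-!
# Row CTX of project RF (MP_16912e_nt): the context exists
-/

set_option autoImplicit false

namespace Pool.Agent.RF

open NumberField

theorem CTX_emb {D : ℤ} {F : Type} [Field F] [NumberField F] {s : F ≃+* F} {r w : F} (hm : Mir D F s r w) :
    ∃ E : F →+* ℂ, E r = ((√5 : ℝ) : ℂ) := by
  obtain ⟨E0⟩ : Nonempty (F →+* ℂ) := inferInstance
  have h1 : (E0 r) ^ 2 = 5 := by
    rw [← map_pow, hm.r2]
    exact map_ofNat E0 5
  have h5 : ((√5 : ℝ) : ℂ) ^ 2 = 5 := by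
    rw [← Complex.ofReal_pow, Real.sq_sqrt (by norm_num)]
    norm_num
  have h2 : (E0 r - ((√5 : ℝ) : ℂ)) * (E0 r + ((√5 : ℝ) : ℂ)) = 0 := by
    linear_combination h1 - h5
  rcases mul_eq_zero.1 h2 with h | h
  · exact ⟨E0, by linear_combination h⟩
  · refine ⟨E0.comp (s : F →+* F), ?_⟩
    have : (E0.comp (s : F →+* F)) r = E0 (s r) := rfl
    rw [this, hm.sr, map_neg]
    linear_combination -h

theorem CTX_conj {D : ℤ} {F : Type} [Field F] [NumberField F] {s : F ≃+* F} {r w : F} (hm : Mir D F s r w) (hD : 0 < D) (E : F →+* ℂ)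
    (hE : E r = ((√5 : ℝ) : ℂ)) : (starRingEnd ℂ) (E w) = - E w := by
  have h1 : (E w) ^ 2 = ((-(√5 * ((1 + √5) / 2) * D) : ℝ) : ℂ) := by
    rw [← map_pow, hm.w2, map_neg, map_mul, map_mul, map_div₀, map_add, map_one, hE, map_intCast, map_ofNat]
    push_cast
    ring
  have hpos : (0 : ℝ) < √5 * ((1 + √5) / 2) * D := by
    have : (0 : ℝ) < D := by exact_mod_cast hD
    positivity
  have him := congrArg Complex.im h1
  have hre := congrArg Complex.re h1
  rw [Complex.ofReal_im, sq, Complex.mul_im] at him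
  rw [Complex.ofReal_re, sq, Complex.mul_re] at hre
  have h3 : (E w).re * (E w).im = 0 := by linarith
  have h4 : (E w).re = 0 := by
    rcases mul_eq_zero.1 h3 with h | h
    · exact h
    · rw [h] at hre
      nlinarith [mul_self_nonneg (E w).re]
  apply Complex.ext
  · rw [Complex.conj_re, Complex.neg_re, h4, neg_zero]
  · rw [Complex.conj_im, Complex.neg_im]

theorem CTX (h1 : CTA_stmt) (h2 : CTB_stmt) (h3 : CTZ_stmt) : CTX_stmt := by
  intro D F _ _ s r w hD hsq h5 hm
  have hD0 : 0 < D := by omega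
  have hD5 : D ≠ 5 := by
    rintro rfl
    exact h5 dvd_rfl
  obtain ⟨hA1, hA2⟩ := h1 D F s r w hD0 hm
  have hB := h2 D F s r w hD0 hsq h5 hm
  have hZ := h3 D F s r w hD hsq hD5 hm
  have hr2 := hm.r2
  have hr1 : (1 : F) + r ≠ 0 := by
    intro h0
    have : (4 : F) = 0 := by linear_combination (r - 1) * h0 - hr2
    norm_num at this
  -- integers
  have hrint : IsIntegral ℤ r := by
    refine IsIntegral.of_pow (n := 2) (by norm_num) ?_
    rw [hr2]
    have := isIntegral_algebraMap (R := ℤ) (A := F) (x := 5)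
    simpa using this
  have hρint : IsIntegral ℤ ((1 + r) / 2) := by
    refine ⟨Polynomial.X ^ 2 - Polynomial.X - 1, ?_, ?_⟩
    · monicity!
    · simp only [Polynomial.eval₂_sub, Polynomial.eval₂_pow, Polynomial.eval₂_X, Polynomial.eval₂_one]
      field_simp
      linear_combination hr2
  have hwint : IsIntegral ℤ w := by
    refine IsIntegral.of_pow (n := 2) (by norm_num) ?_
    rw [hm.w2]
    have h6 := isIntegral_algebraMap (R := ℤ) (A := F) (x := D)
    have h7 : IsIntegral ℤ (D : F) := by simpa using h6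
    exact ((hrint.mul hρint).mul h7).neg
  set ρ : 𝓞 F := ⟨(1 + r) / 2, hρint⟩ with hρdef
  have hρF : algebraMap (𝓞 F) F ρ = (1 + r) / 2 := rfl
  set wO : 𝓞 F := ⟨w, hwint⟩ with hwdef
  have hwF : (wO : F) = w := rfl
  have hρ2 : ρ * ρ = (1 : ℤ) • (1 : 𝓞 F) + (1 : ℤ) • ρ := by
    apply RingOfIntegers.ext
    change algebraMap (𝓞 F) F _ = algebraMap (𝓞 F) F _
    rw [one_smul, one_smul, map_mul, map_add, map_one, hρF]
    field_simp
    linear_combination hr2
  set ι : OO →+* 𝓞 F := (QuadraticAlgebra.lift (R := ℤ) (a := 1) (b := 1) ⟨ρ, hρ2⟩ : QuadraticAlgebra ℤ 1 1 →ₐ[ℤ] 𝓞 F).toRingHom with hιdef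
  have hι : ∀ z : OO, ι z = (z.re : 𝓞 F) + (z.im : 𝓞 F) * ρ := by
    intro z
    have : ι z = z.re • (1 : 𝓞 F) + z.im • ρ := rfl
    rw [this, zsmul_eq_mul, zsmul_eq_mul, mul_one]
  have hιF : ∀ z : OO, algebraMap (𝓞 F) F (ι z) = (z.re : F) + (z.im : F) * ((1 + r) / 2) := by
    intro z
    rw [hι, map_add, map_mul, map_intCast, map_intCast, hρF]
  have hssr : s (s r) = r := by rw [hm.sr, map_neg, hm.sr, neg_neg]
  have hr1' : (1 : F) - r ≠ 0 := by
    intro h0
    have : (4 : F) = 0 := by linear_combination (- r - 1) * h0 - hr2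
    norm_num at this
  have hssw : s (s w) = - w := by
    rw [hm.sw, map_mul, hm.sw, map_div₀, map_add, map_one, hm.sr, map_ofNat]
    have : (1 : F) + -r ≠ 0 := by rwa [← sub_eq_add_neg]
    field_simp
    linear_combination (- w) * hr2
  obtain ⟨E, hE⟩ := CTX_emb hm
  have hEc := CTX_conj hm hD0 E hE
  have hcr : (starRingEnd ℂ) (E r) = E r := by rw [hE, Complex.conj_ofReal]
  have hcc : ∀ x : F, E (s (s x)) = (starRingEnd ℂ) (E x) := by
    intro x
    obtain ⟨a, b, c, d, rfl⟩ := hA1 x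
    simp only [map_add, map_mul, map_ratCast, hssr, hssw, hcr, hEc, map_neg]
  let σ : 𝓞 F ≃+* 𝓞 F := RingOfIntegers.mapRingEquiv s
  have hσ : ∀ x : 𝓞 F, ((σ x : 𝓞 F) : F) = s (x : F) := fun x => rfl
  let E1 : 𝓞 F →+* ℂ := E.comp (algebraMap (𝓞 F) F)
  have hE1 : ∀ x : 𝓞 F, E1 x = E (algebraMap (𝓞 F) F x) := fun x => rfl
  have hσ' : ∀ x : 𝓞 F, algebraMap (𝓞 F) F (σ x) = s (algebraMap (𝓞 F) F x) := fun x => rfl
  refine ⟨{ s := s, σ := σ, ι := ι, w := wO, E1 := E1, E2 := E1.comp (σ : 𝓞 F →+* 𝓞 F), hσ := hσ, σι := ?_, ww := ?_, σw := ?_,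
            ind := ?_, co := ?_, z5 := ?_, E1ι := ?_, E12 := fun x => rfl, E1c := ?_, E2c := ?_ }, rfl, hwF⟩
  · intro z
    apply RingOfIntegers.ext
    change s (algebraMap (𝓞 F) F (ι z)) = algebraMap (𝓞 F) F (ι (star z))
    rw [hιF, hιF, map_add, map_mul, map_intCast, map_intCast, map_div₀, map_add, map_one, hm.sr, map_ofNat,
      QuadraticAlgebra.re_star, QuadraticAlgebra.im_star]
    push_cast
    ring
  · apply RingOfIntegers.ext
    change (algebraMap (𝓞 F) F) (wO ^ 2) = (algebraMap (𝓞 F) F) (-(ι w2 * (D : 𝓞 F)))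
    rw [map_pow, map_neg, map_mul, map_intCast, hιF]
    have : (algebraMap (𝓞 F) F) wO = w := rfl
    rw [this, hm.w2]
    simp only [w2, Int.cast_ofNat, Int.cast_one]
    linear_combination (-(D : F) / 2) * hr2
  · apply RingOfIntegers.ext
    change (algebraMap (𝓞 F) F) (ι ph * σ wO) = w
    rw [map_mul, hιF]
    have : (algebraMap (𝓞 F) F) (σ wO) = s w := rfl
    rw [this, hm.sw]
    simp only [ph, Int.cast_zero, Int.cast_one]
    field_simp
    ring
  · intro a b hab
    have h6 := congrArg (algebraMap (𝓞 F) F) hab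
    rw [map_add, map_mul, map_zero, hιF, hιF] at h6
    have hwF' : (algebraMap (𝓞 F) F) wO = w := rfl
    rw [hwF'] at h6
    obtain ⟨e1, e2, e3, e4⟩ := hA2 ((a.re : ℚ) + a.im / 2) ((a.im : ℚ) / 2) ((b.re : ℚ) + b.im / 2) ((b.im : ℚ) / 2) (by
      push_cast
      linear_combination h6)
    have e2' : (a.im : ℚ) = 0 := by linarith
    have e4' : (b.im : ℚ) = 0 := by linarith
    have e1' : (a.re : ℚ) = 0 := by linarith
    have e3' : (b.re : ℚ) = 0 := by linarith
    refine ⟨QuadraticAlgebra.ext ?_ ?_, QuadraticAlgebra.ext ?_ ?_⟩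
    · exact_mod_cast e1'
    · exact_mod_cast e2'
    · exact_mod_cast e3'
    · exact_mod_cast e4'
  · intro x
    obtain ⟨a, b, hab⟩ := hB (x : F) (RingOfIntegers.isIntegral_coe x)
    refine ⟨a, b, ?_⟩
    apply RingOfIntegers.ext
    change (algebraMap (𝓞 F) F) (10 * x) = (algebraMap (𝓞 F) F) (ι a + ι b * wO)
    rw [map_add, map_mul, map_mul, hιF, hιF, map_ofNat]
    exact hab
  · intro x y hxy
    apply RingOfIntegers.ext
    apply hZ
    have := congrArg (algebraMap (𝓞 F) F) hxy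
    rw [map_pow, map_pow] at this
    exact this
  · intro z
    rw [hE1, hιF, map_add, map_mul, map_intCast, map_intCast, map_div₀, map_add, map_one, map_ofNat, hE]
    unfold va
    push_cast
    ring
  · intro x
    rw [hE1, hE1, hσ', hσ']
    exact hcc _
  · intro x
    change E1 (σ (σ (σ x))) = (starRingEnd ℂ) (E1 (σ x))
    rw [hE1, hE1, hσ' (σ (σ x)), hσ' (σ x)]
    exact hcc _

end Pool.Agent.RF
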