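import Pool.Agent.helper13.RF.Spec1

/-!
# Row AMB of project RF (MP_16912e_nt)
-/

set_option autoImplicit false

open NumberField
open scoped nonZeroDivisors

namespace Pool.Agent.RF

theorem AMB_norm {K L : Type} [Field K] [NumberField K] [Field L] [NumberField L] [Algebra K L] (σ : L ≃ₐ[K] L) (hE : Ext5 K L σ) (x : L) :
    algebraMap K L (Algebra.norm K x) = x * σ x * σ (σ x) * σ (σ (σ x)) * σ (σ (σ (σ x))) := by
  classical
  have hgal := hE.gal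
  have hord : orderOf σ = 5 := by
    rw [orderOf_eq_card_of_forall_mem_zpowers hE.gen, IsGalois.card_aut_eq_finrank, hE.deg]
  have huniv : (Finset.univ : Finset (L ≃ₐ[K] L)) = (Finset.range 5).image (fun i => σ ^ i) := by
    symm
    rw [Finset.eq_univ_iff_forall]
    intro τ
    have h1 := ((isOfFinOrder_of_finite σ).mem_zpowers_iff_mem_range_orderOf (y := τ)).1 (hE.gen τ)
    rw [hord] at h1
    exact h1
  rw [Algebra.norm_eq_prod_automorphisms, huniv, Finset.prod_image]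
  · simp only [Finset.prod_range_succ, Finset.prod_range_zero, one_mul, pow_zero, AlgEquiv.one_apply, pow_succ, AlgEquiv.mul_apply]
  · intro i hi j hj hij
    have := pow_injOn_Iio_orderOf (x := σ)
    refine this ?_ ?_ hij
    · rw [Set.mem_Iio, hord]
      simpa using hi
    · rw [Set.mem_Iio, hord]
      simpa using hj

theorem AMB_z (hINV : INV_stmt) {K L : Type} [Field K] [NumberField K] [Field L] [NumberField L] [Algebra K L] (σ : L ≃ₐ[K] L) (hE : Ext5 K L σ)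
    (hU : Unr K L) (e : (𝓞 L)ˣ) (he : nm (gU σ) e = 1) :
    ∃ (z : 𝓞 L) (J : Ideal (𝓞 K)), z ≠ 0 ∧ J ≠ ⊥ ∧ (e : 𝓞 L) * gO σ z = z ∧ J.map (algebraMap (𝓞 K) (𝓞 L)) = Ideal.span {z} := by
  have hgal := hE.gal
  have h0 : Algebra.norm K (algebraMap (𝓞 L) L (e : 𝓞 L)) = 1 := by
    apply (algebraMap K L).injective
    rw [AMB_norm σ hE, map_one]
    have h1 := congrArg (fun u : (𝓞 L)ˣ => algebraMap (𝓞 L) L (u : 𝓞 L)) he
    simp only [nm, MonoidHom.coe_mk, OneHom.coe_mk, Units.val_mul, map_mul, Units.coe_map, Units.val_one, map_one] at h1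
    have h2 : ∀ y : 𝓞 L, algebraMap (𝓞 L) L (((gO σ : 𝓞 L →ₐ[𝓞 K] 𝓞 L) : 𝓞 L →* 𝓞 L) y) = σ (algebraMap (𝓞 L) L y) :=
      fun y => algebraMap_galRestrict_apply (𝓞 K) σ y
    simp only [h2] at h1
    exact h1
  have hcyc : IsCyclic (L ≃ₐ[K] L) := ⟨σ, hE.gen⟩
  obtain ⟨z, hz0, hz⟩ := groupCohomology.exists_mul_galRestrict_of_norm_eq_one (A := 𝓞 K) (B := 𝓞 L) hE.gen h0
  have hI : (Ideal.span {z}).map (gO σ) = Ideal.span {z} := by
    rw [Ideal.map_span, Set.image_singleton]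
    refine Ideal.span_singleton_eq_span_singleton.2 ⟨e, ?_⟩
    rw [mul_comm]
    exact hz
  obtain ⟨J, hJ⟩ := hINV K L σ hE.gen hU (Ideal.span {z}) (by rwa [Ne, Ideal.span_singleton_eq_bot]) hI
  refine ⟨z, J, hz0, ?_, hz, hJ⟩
  rintro rfl
  rw [Ideal.map_bot] at hJ
  exact hz0 (Ideal.span_singleton_eq_bot.1 hJ.symm)

theorem AMB (hINV : INV_stmt) : AMB_stmt := by
  intro K L _ _ _ _ _ σ hE hU
  classical
  choose z J hz0 hJ0 hz hJ using fun (e : (nm (gU σ)).ker) => AMB_z hINV σ hE hU e.1 e.2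
  have hJm : ∀ e, J e ∈ (Ideal (𝓞 K))⁰ := fun e => mem_nonZeroDivisors_of_ne_zero (hJ0 e)
  have hker : ∀ e, ClassGroup.extendedHom (𝓞 K) (𝓞 L) (ClassGroup.mk0 ⟨J e, hJm e⟩) = 1 := by
    intro e
    rw [ClassGroup.extendedHom_mk0]
    refine (ClassGroup.mk0_eq_one_iff (ClassGroup.extendedIdeal (𝓞 K) (𝓞 L) ⟨J e, hJm e⟩).2).2 ?_
    refine ⟨⟨z e, ?_⟩⟩
    exact hJ e
  have hinj : ∀ e1 e2, ClassGroup.mk0 (⟨J e1, hJm e1⟩ : (Ideal (𝓞 K))⁰) = ClassGroup.mk0 ⟨J e2, hJm e2⟩ → ∃ w, df (gU σ) w = (e1 : (𝓞 L)ˣ)⁻¹ * (e2 : (𝓞 L)ˣ) := by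
    intro e1 e2 h
    obtain ⟨x, y, hx, hy, hxy⟩ := ClassGroup.mk0_eq_mk0_iff.1 h
    have h1 := congrArg (Ideal.map (algebraMap (𝓞 K) (𝓞 L))) hxy
    simp only [Ideal.map_mul, Ideal.map_span, Set.image_singleton, hJ, Ideal.span_singleton_mul_span_singleton] at h1
    obtain ⟨v, hv⟩ := Ideal.span_singleton_eq_span_singleton.1 h1
    have hinjO : Function.Injective (algebraMap (𝓞 K) (𝓞 L)) := FaithfulSMul.algebraMap_injective _ _
    have hx' : algebraMap (𝓞 K) (𝓞 L) x ≠ 0 := by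
      rw [Ne, ← map_zero (algebraMap (𝓞 K) (𝓞 L)), hinjO.eq_iff]
      exact hx
    have hsz : gO σ (z e1) ≠ 0 := by
      rw [Ne, EmbeddingLike.map_eq_zero_iff]
      exact hz0 e1
    have hsx : gO σ (algebraMap (𝓞 K) (𝓞 L) x) = algebraMap (𝓞 K) (𝓞 L) x := (gO σ).commutes x
    have hsy : gO σ (algebraMap (𝓞 K) (𝓞 L) y) = algebraMap (𝓞 K) (𝓞 L) y := (gO σ).commutes y
    have h3 : ((e2 : (𝓞 L)ˣ) : 𝓞 L) * gO σ (algebraMap (𝓞 K) (𝓞 L) x * z e1 * v) = algebraMap (𝓞 K) (𝓞 L) x * z e1 * v := by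
      rw [hv, map_mul, hsy]
      linear_combination (algebraMap (𝓞 K) (𝓞 L) y) * hz e2
    have h4 : ((e2 : (𝓞 L)ˣ) : 𝓞 L) * gO σ (v : 𝓞 L) = ((e1 : (𝓞 L)ˣ) : 𝓞 L) * v := by
      apply mul_left_cancel₀ (mul_ne_zero hx' hsz)
      rw [map_mul, map_mul, hsx] at h3
      linear_combination h3 - (algebraMap (𝓞 K) (𝓞 L) x) * v * hz e1
    refine ⟨v⁻¹, ?_⟩
    have h5 : (e2 : (𝓞 L)ˣ) * gU σ v = (e1 : (𝓞 L)ˣ) * v := Units.ext h4
    change gU σ v⁻¹ / v⁻¹ = _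
    have h6 : gU σ v = (e2 : (𝓞 L)ˣ)⁻¹ * ((e1 : (𝓞 L)ˣ) * v) := eq_inv_mul_of_mul_eq h5
    rw [map_inv, div_inv_eq_mul, h6, mul_inv, mul_inv, inv_inv, mul_assoc, inv_mul_cancel_right, mul_comm]
  unfold Subgroup.relIndex
  unfold Subgroup.index
  refine Nat.card_le_card_of_injective (fun q => (⟨ClassGroup.mk0 ⟨J q.out, hJm q.out⟩, hker q.out⟩ : (ClassGroup.extendedHom (𝓞 K) (𝓞 L)).ker)) ?_
  intro q1 q2 h
  obtain ⟨w, hw⟩ := hinj q1.out q2.out (congrArg Subtype.val h)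
  rw [← QuotientGroup.out_eq' q1, ← QuotientGroup.out_eq' q2]
  refine QuotientGroup.eq.2 ?_
  rw [Subgroup.mem_subgroupOf]
  exact ⟨w, hw⟩

end Pool.Agent.RF
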