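import Pool.Agent.helper95.RF.SpecC2

/-!
# Row CER of project RF (MP_16912e_nt): the exponential sums of a family
-/

set_option autoImplicit false

namespace Pool.Agent.RF

open Finset NumberField Pool.Agent.helper3.FT

theorem CER_norm_e (x : ℝ) : ‖e x‖ = 1 := by
  unfold e
  rw [Complex.norm_exp]
  simp

theorem CER_ico (m : ℤ) (B : ℕ) (p : ℤ → Prop) [DecidablePred p] : (((Ico m (m + B)).filter p).card : ℝ) ≤ B := by
  have h : ((Ico m (m + B)).filter p).card ≤ B := by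
    refine (card_filter_le _ _).trans ?_
    rw [Int.card_Ico]
    simp
  exact_mod_cast h

theorem CER_triv (m₀ g₀ : ℤ) (B : ℕ) (a b c x y : ℝ) : ‖T5.ESg m₀ g₀ B B 1 0 0 a b c x y‖ ≤ (B : ℝ) ^ 2 := by
  unfold T5.ESg
  have h1 : ∀ m ∈ (Ico m₀ (m₀ + B)).filter (fun m => ((1 : ℕ) : ℤ) ∣ m - 0),
      ‖∑ g ∈ (Ico g₀ (g₀ + B)).filter (fun g => ((1 : ℕ) : ℤ) ∣ g - 0), e (a * m ^ 2 + b * m * g + c * g ^ 2 + x * m + y * g)‖ ≤ (B : ℝ) := by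
    intro m _
    refine (norm_sum_le _ _).trans ?_
    simp only [CER_norm_e, sum_const, nsmul_eq_mul, mul_one]
    exact CER_ico _ _ _
  refine (norm_sum_le_of_le _ h1).trans ?_
  rw [sum_const, nsmul_eq_mul, sq]
  exact mul_le_mul_of_nonneg_right (CER_ico _ _ _) (Nat.cast_nonneg _)

theorem CER_log {ε C₀ : ℝ} (hε : 0 < ε) (hC₀ : 1 ≤ C₀) (Q B : ℕ) (hQ : 1 ≤ Q) (hB : 1 ≤ B) (h : (B : ℝ) ^ 2 ≤ C₀ * (Q : ℝ) ^ 3) :
    1 + Real.log B ≤ (1 + Real.log C₀ + 4 / ε) * (Q : ℝ) ^ (ε / 2) := by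
  have hQ' : (1 : ℝ) ≤ Q := by exact_mod_cast hQ
  have hB' : (1 : ℝ) ≤ B := by exact_mod_cast hB
  have hC0 : 0 < C₀ := by linarith
  have h1 : Real.log ((B : ℝ) ^ 2) ≤ Real.log (C₀ * (Q : ℝ) ^ 3) := Real.log_le_log (by positivity) h
  rw [Real.log_pow, Real.log_mul hC0.ne' (by positivity), Real.log_pow] at h1
  push_cast at h1
  have h2 : 0 ≤ Real.log C₀ := Real.log_nonneg hC₀
  have h3 : 0 ≤ Real.log Q := Real.log_nonneg hQ'
  have h4 : Real.log Q ≤ (Q : ℝ) ^ (ε / 2) / (ε / 2) := Real.log_le_rpow_div (by positivity) (by positivity)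
  have h5 : 1 ≤ (Q : ℝ) ^ (ε / 2) := Real.one_le_rpow hQ' (by positivity)
  have h6 : Real.log B ≤ Real.log C₀ + 2 * Real.log Q := by linarith
  have h7 : 2 * Real.log Q ≤ 4 / ε * (Q : ℝ) ^ (ε / 2) := by
    calc 2 * Real.log Q ≤ 2 * ((Q : ℝ) ^ (ε / 2) / (ε / 2)) := by linarith
      _ = 4 / ε * (Q : ℝ) ^ (ε / 2) := by
        field_simp
        ring
  have h8 : 1 + Real.log C₀ ≤ (1 + Real.log C₀) * (Q : ℝ) ^ (ε / 2) := le_mul_of_one_le_right (by linarith) h5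
  calc 1 + Real.log B ≤ (1 + Real.log C₀) + 4 / ε * (Q : ℝ) ^ (ε / 2) := by linarith
    _ ≤ (1 + Real.log C₀) * (Q : ℝ) ^ (ε / 2) + 4 / ε * (Q : ℝ) ^ (ε / 2) := by linarith
    _ = (1 + Real.log C₀ + 4 / ε) * (Q : ℝ) ^ (ε / 2) := by ring

theorem CER_dvd {Q : ℕ} {T : Finset OO} (hT : KF Q T) : ∀ k ∈ T, ∀ k₁ ∈ T, k ∣ k₁ → k = k₁ := by
  intro k hk k₁ hk₁ hd
  apply hT.inj k hk k₁ hk₁
  have h1 : k.norm ∣ k₁.norm := map_dvd QuadraticAlgebra.norm hd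
  have h2 : k.norm.natAbs ∣ k₁.norm.natAbs := Int.natAbs_dvd_natAbs.2 h1
  rcases (Nat.dvd_prime (hT.kk k₁ hk₁).pr).1 h2 with h | h
  · exact absurd h (hT.kk k hk).pr.ne_one
  · exact h

theorem CER_card {Q : ℕ} {T : Finset OO} (hT : KF Q T) : T.card ≤ Q := by
  have h1 : T.card ≤ (Ioc Q (2 * Q)).card := by
    refine card_le_card_of_injOn (fun k => k.norm.natAbs) ?_ ?_
    · intro k hk
      rw [coe_Ioc, Set.mem_Ioc]
      exact ⟨(hT.kk k hk).lo, (hT.kk k hk).hi⟩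
    · intro k hk k' hk' h
      exact hT.inj k hk k' hk' h
  rw [Nat.card_Ioc] at h1
  omega

theorem CER_mult (H q Q : ℕ) (hq : Q < q) (hQ : 1 ≤ Q) : (((Icc 1 H).filter (fun h => q ∣ h)).card : ℝ) ≤ (H : ℝ) / Q := by
  have h1 : ((Icc 1 H).filter (fun h => q ∣ h)).card = H / q := by
    have := Nat.Ioc_filter_dvd_card_eq_div H q
    rw [← this]
    rfl
  rw [h1]
  have h2 : ((H / q : ℕ) : ℝ) ≤ (H : ℝ) / q := Nat.cast_div_le
  refine h2.trans ?_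
  have hQ' : (0 : ℝ) < Q := by exact_mod_cast hQ
  have hq' : (Q : ℝ) ≤ q := by exact_mod_cast hq.le
  exact div_le_div_of_nonneg_left (Nat.cast_nonneg _) hQ' hq'

theorem CER (h1 : SNR_stmt) (h2 : T5.WEY_stmt) : CER_stmt := by
  intro ε C₀ hε hC₀
  obtain ⟨Cw, hCw, hW⟩ := h2
  obtain ⟨Cs, hCs, hS⟩ := h1 C₀ (ε / 8) hC₀ (by positivity)
  set n : ℕ := ⌈C₀⌉₊ with hn
  have hn1 : C₀ ≤ n := Nat.le_ceil C₀
  have hn2 : (1 : ℝ) ≤ n := hC₀.trans hn1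
  have hn3 : 1 ≤ n := by exact_mod_cast hn2
  have hlog0 : 0 ≤ Real.log C₀ := Real.log_nonneg hC₀
  have hC1 : 1 ≤ 1 + Real.log C₀ + 4 / ε := by
    have : 0 < 4 / ε := by positivity
    linarith
  have hsq : 1 ≤ √Cw := Real.one_le_sqrt.2 hCw
  have hnp : 1 ≤ (n : ℝ) ^ (ε / 8) := Real.one_le_rpow hn2 (by positivity)
  refine ⟨√Cw * (1 + Real.log C₀ + 4 / ε) * (Cs * (n : ℝ) ^ (ε / 8)), ?_, ?_⟩
  · exact one_le_mul_of_one_le_of_one_le (one_le_mul_of_one_le_of_one_le hsq hC1) (one_le_mul_of_one_le_of_one_le hCs hnp)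
  intro Q B H c G L g T A x y u w hT hQ hB hH hc hG hGQ hL hLQ hg hga hgb hcop hRQ hHc hQL
  have hQ' : (1 : ℝ) ≤ Q := by exact_mod_cast hQ
  have hB' : (1 : ℝ) ≤ B := by exact_mod_cast hB
  have hH' : (1 : ℝ) ≤ H := by exact_mod_cast hH
  have hc' : (1 : ℝ) ≤ c := by exact_mod_cast hc
  have hB2 : (1 : ℝ) ≤ (B : ℝ) ^ 2 := one_le_pow₀ hB'
  have hBC : (B : ℝ) ^ 2 ≤ C₀ * (Q : ℝ) ^ 3 := by
    refine le_trans ?_ hHc
    have : 1 ≤ (H : ℝ) * c := one_le_mul_of_one_le_of_one_le hH' hc'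
    exact le_mul_of_one_le_left (by positivity) this
  have hHT : H ≤ n * Q ^ 3 := by
    have : (H : ℝ) ≤ n * (Q : ℝ) ^ 3 := by
      calc (H : ℝ) = H * 1 * 1 := by ring
        _ ≤ H * c * (B : ℝ) ^ 2 := by gcongr
        _ ≤ C₀ * (Q : ℝ) ^ 3 := hHc
        _ ≤ n * (Q : ℝ) ^ 3 := by gcongr
    exact_mod_cast this
  have hQ3 : (Q : ℝ) ≤ (Q : ℝ) ^ 3 := le_self_pow₀ hQ' (by norm_num)
  have hQ23 : (Q : ℝ) ^ 2 ≤ (Q : ℝ) ^ 3 := pow_le_pow_right₀ hQ' (by norm_num)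
  have hnQ : (Q : ℝ) ^ 3 ≤ n * (Q : ℝ) ^ 3 := le_mul_of_one_le_left (by positivity) hn2
  have hcast : ((n * Q ^ 3 : ℕ) : ℝ) = n * (Q : ℝ) ^ 3 := by push_cast; ring
  have hQT : Q ≤ n * Q ^ 3 := by
    have : (Q : ℝ) ≤ n * (Q : ℝ) ^ 3 := hQ3.trans hnQ
    exact_mod_cast this
  have hSS := hS (n * Q ^ 3) Q B c H G L g T A hQ hQT hB hc hHT hG (by rw [hcast]; exact hGQ.trans (hQ3.trans hnQ)) hL
    (by rw [hcast]; exact hLQ.trans (hQ23.trans hnQ)) hg hga hgb hQL hHc (fun k hk => ⟨hT.kk k hk, hcop k hk, hRQ k hk⟩) (CER_dvd hT)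
  set W : ℝ := Q * H + √(Q * H) * G * L ^ 2 + Q * G * L ^ 2 + Q * √(H : ℝ) * L with hWdef
  have hW0 : 0 ≤ W := by
    have : 0 ≤ G := by linarith
    have : 0 ≤ L := by linarith
    positivity
  have hTp : ((n * Q ^ 3 : ℕ) : ℝ) ^ (ε / 8) ≤ (n : ℝ) ^ (ε / 8) * (Q : ℝ) ^ (ε / 2) := by
    rw [hcast, Real.mul_rpow (by positivity) (by positivity), ← Real.rpow_natCast (Q : ℝ) 3, ← Real.rpow_mul (by positivity)]
    refine mul_le_mul_of_nonneg_left ?_ (by positivity)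
    refine Real.rpow_le_rpow_of_exponent_le hQ' ?_
    push_cast
    linarith
  -- pointwise bound
  have hpt : ∀ k ∈ T, ∀ h : ℕ, ‖T5.ESg (x k) (y k) B B 1 0 0 ((h : ℝ) * (A k).1 / (k.norm.natAbs : ℝ) ^ 3)
      ((h : ℝ) * (A k).2.1 / (k.norm.natAbs : ℝ) ^ 3) ((h : ℝ) * (A k).2.2 / (k.norm.natAbs : ℝ) ^ 3) (u k h) (w k h)‖ ≤
      √Cw * (1 + Real.log B) * B * √(nearK B A h k) := by
    intro k _ h
    have h3 := hW (x k) (y k) B B 1 0 0 ((h : ℝ) * (A k).1 / (k.norm.natAbs : ℝ) ^ 3)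
      ((h : ℝ) * (A k).2.1 / (k.norm.natAbs : ℝ) ^ 3) ((h : ℝ) * (A k).2.2 / (k.norm.natAbs : ℝ) ^ 3) (u k h) (w k h) hB hB le_rfl
    have hlB : 0 ≤ Real.log B := Real.log_nonneg hB'
    refine Real.le_sqrt_of_sq_le h3 |>.trans ?_
    refine Real.sqrt_le_iff.2 ⟨by positivity, ?_⟩
    have h4 : (√Cw * (1 + Real.log B) * B * √(nearK B A h k)) ^ 2 = (√Cw) ^ 2 * (1 + Real.log B) ^ 2 * B ^ 2 * (√(nearK B A h k)) ^ 2 := by ring
    rw [h4, Real.sq_sqrt (by linarith), Real.sq_sqrt (show (0 : ℝ) ≤ nearK B A h k from Nat.cast_nonneg _)]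
    apply le_of_eq
    unfold nearK
    ring
  have hlB : 0 ≤ Real.log B := Real.log_nonneg hB'
  have hA : ∑ k ∈ T, ∑ h ∈ (Icc 1 H).filter (fun h => ¬ k.norm.natAbs ∣ h), ‖T5.ESg (x k) (y k) B B 1 0 0
      ((h : ℝ) * (A k).1 / (k.norm.natAbs : ℝ) ^ 3) ((h : ℝ) * (A k).2.1 / (k.norm.natAbs : ℝ) ^ 3)
      ((h : ℝ) * (A k).2.2 / (k.norm.natAbs : ℝ) ^ 3) (u k h) (w k h)‖ ≤
      √Cw * (1 + Real.log C₀ + 4 / ε) * (Cs * (n : ℝ) ^ (ε / 8)) * (Q : ℝ) ^ ε * B * W := by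
    calc _ ≤ ∑ k ∈ T, ∑ h ∈ (Icc 1 H).filter (fun h => ¬ k.norm.natAbs ∣ h), √Cw * (1 + Real.log B) * B * √(nearK B A h k) :=
          sum_le_sum fun k hk => sum_le_sum fun h _ => hpt k hk h
      _ = √Cw * (1 + Real.log B) * B * ∑ k ∈ T, ∑ h ∈ (Icc 1 H).filter (fun h => ¬ k.norm.natAbs ∣ h), √(nearK B A h k) := by
          simp only [mul_sum]
      _ ≤ √Cw * ((1 + Real.log C₀ + 4 / ε) * (Q : ℝ) ^ (ε / 2)) * B * (Cs * ((n : ℝ) ^ (ε / 8) * (Q : ℝ) ^ (ε / 2)) * W) := by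
          have hlog := CER_log hε hC₀ Q B hQ hB hBC
          have hs := hSS.trans (mul_le_mul_of_nonneg_right (mul_le_mul_of_nonneg_left hTp (by linarith : (0 : ℝ) ≤ Cs)) hW0)
          refine mul_le_mul ?_ hs ?_ ?_
          · refine mul_le_mul_of_nonneg_right ?_ (by positivity)
            exact mul_le_mul_of_nonneg_left hlog (by positivity)
          · exact sum_nonneg fun k _ => sum_nonneg fun h _ => Real.sqrt_nonneg _
          · positivity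
      _ = √Cw * (1 + Real.log C₀ + 4 / ε) * (Cs * (n : ℝ) ^ (ε / 8)) * ((Q : ℝ) ^ (ε / 2) * (Q : ℝ) ^ (ε / 2)) * B * W := by ring
      _ = √Cw * (1 + Real.log C₀ + 4 / ε) * (Cs * (n : ℝ) ^ (ε / 8)) * (Q : ℝ) ^ ε * B * W := by
          rw [← Real.rpow_add (by positivity)]
          congr 4
          ring
  have hBd : ∑ k ∈ T, ∑ h ∈ (Icc 1 H).filter (fun h => k.norm.natAbs ∣ h), ‖T5.ESg (x k) (y k) B B 1 0 0
      ((h : ℝ) * (A k).1 / (k.norm.natAbs : ℝ) ^ 3) ((h : ℝ) * (A k).2.1 / (k.norm.natAbs : ℝ) ^ 3)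
      ((h : ℝ) * (A k).2.2 / (k.norm.natAbs : ℝ) ^ 3) (u k h) (w k h)‖ ≤ H * (B : ℝ) ^ 2 := by
    calc _ ≤ ∑ k ∈ T, (H : ℝ) / Q * (B : ℝ) ^ 2 := by
          refine sum_le_sum fun k hk => ?_
          calc _ ≤ ∑ h ∈ (Icc 1 H).filter (fun h => k.norm.natAbs ∣ h), (B : ℝ) ^ 2 := sum_le_sum fun h _ => CER_triv _ _ _ _ _ _ _ _
            _ = (((Icc 1 H).filter (fun h => k.norm.natAbs ∣ h)).card : ℝ) * (B : ℝ) ^ 2 := by rw [sum_const, nsmul_eq_mul]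
            _ ≤ (H : ℝ) / Q * (B : ℝ) ^ 2 := mul_le_mul_of_nonneg_right (CER_mult H _ Q (hT.kk k hk).lo hQ) (by positivity)
      _ = (T.card : ℝ) * ((H : ℝ) / Q * (B : ℝ) ^ 2) := by rw [sum_const, nsmul_eq_mul]
      _ ≤ (Q : ℝ) * ((H : ℝ) / Q * (B : ℝ) ^ 2) := by
          have : (T.card : ℝ) ≤ Q := by exact_mod_cast CER_card hT
          exact mul_le_mul_of_nonneg_right this (by positivity)
      _ = H * (B : ℝ) ^ 2 := by
          have : (Q : ℝ) ≠ 0 := by positivity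
          field_simp
  have hsplit : ∀ k : OO, ∀ f : ℕ → ℝ, ∑ h ∈ Icc 1 H, f h = ∑ h ∈ (Icc 1 H).filter (fun h => ¬ k.norm.natAbs ∣ h), f h +
      ∑ h ∈ (Icc 1 H).filter (fun h => k.norm.natAbs ∣ h), f h := by
    intro k f
    rw [add_comm]
    exact (sum_filter_add_sum_filter_not _ _ _).symm
  rw [sum_congr rfl fun k _ => hsplit k _, sum_add_distrib]
  exact add_le_add hA hBd

end Pool.Agent.RF
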